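import Pool.Agent.Helper56.RC.StF

/-!
# Project RC, module BLKC: the block inequality of option C
-/

open MeasureTheory Set Filter Metric

namespace Pool.Agent.Helper62.RC

open Helper56.RC

/-! ### rational values -/

def cq (i : ℤ) : ℚ := (cT i : ℚ) / 1000000

def kq (j : ℤ) : ℚ :=
  (|cq (44 * j + 40)| + 1 / 100000) * (4 / |(j : ℚ)| * (|cq (8 * j - 60)| + 1 / 100000))

def thq (m : ℤ) : ℚ :=
  if m = -8 then 5 / 2 else if m = -6 then 5 / 4 else if m = -4 then 1 else if m = -2 then 21 / 4 else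
  if m = 0 then 3 / 4 else if m = 2 then 3 / 4 else if m = 4 then 3 else if m = 6 then 7 / 4 else
  if m = 8 then 1 / 2 else if m = 10 then 3 else 1

def aq (n m : ℤ) : ℚ :=
  if n = 1 ∧ m = -2 then 0 else 19 / 20 * (if (m - n) ^ 2 = 9 then 11 / 10 else 1 / 10) * kq (n + m)

def wtq (n m : ℤ) : ℚ := if n = 1 ∧ m = 4 then 2 else thq m

def bq (n : ℤ) : ℚ :=
  wtq n (n - 9) * aq n (n - 9) + wtq n (n - 3) * aq n (n - 3)
    + wtq n (n + 3) * aq n (n + 3) + wtq n (n + 9) * aq n (n + 9)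

def gq (n : ℤ) : ℚ := 1 / 2 + 1 / 2 * (cq (88 * n + 80) * cq (16 * n))

def pq (k : ℕ) : ℚ := 2 + 173205 / 2000000 * (-1) ^ k + 33 / 200 * (if k % 3 = 1 then 2 else -1)

def qq (k : ℕ) : ℚ := 2 + 173205 / 2000000 * (-1) ^ k + 33 / 200 * (if k % 3 = 0 then 2 else -1)

/-- lower bound of the coefficient of `‖u‖²` -/
def aL (k : ℕ) : ℚ :=
  891 / 100 - 17 / 100 - bq (2 * k + 3) - 43916 / 100000 + 1 / (2 * k + 3)
    + 19 / 20 * (4 * (gq (2 * k + 3) - 2 / 100000) / (2 * k + 3))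
    - 25 / 33 * ((2 * k + 1) / (2 * k + 3)) * (pq k + 1 / 1000000) ^ 2

/-- lower bound of the coefficient of `‖w‖²` -/
def bL (k : ℕ) : ℚ :=
  891 / 100 - 17 / 100 - bq (-(2 * k + 1)) - 43916 / 100000 - 1 / (2 * k + 1)
    - 19 / 20 * (4 * (gq (-(2 * k + 1)) + 2 / 100000) / (2 * k + 1))
    - 25 / 33 * ((2 * k + 3) / (2 * k + 1)) * (qq k + 1 / 1000000) ^ 2

/-- upper bound of the coefficient of `2 Re (u w)` -/
def cU (k : ℕ) : ℚ := |-(43915 / 100000) + 25 / 33 * (pq k * qq k)| + 2 / 100000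

theorem small : ∀ k : ℕ, k < 9 → k ≠ 0 → 0 ≤ aL k ∧ 0 ≤ bL k ∧ cU k ^ 2 ≤ aL k * bL k := by
  decide +kernel

theorem zero1 : bq 3 ≤ 52 / 100 ∧ bq (-1) ≤ 43 / 100 ∧ gq (-1) ≤ 95 / 100 := by
  decide +kernel

/-! ### soundness of the rational values -/

theorem cos_of (h : StTrg) (x : ℝ) (i : ℤ) (hx : x = i * Real.pi / 120) :
    |Real.cos x - (cq i : ℝ)| ≤ 1 / 100000 := by
  have h1 := h i
  rw [← hx] at h1
  have e1 : ((cq i : ℚ) : ℝ) = (cT i : ℝ) / 10 ^ 6 := by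
    unfold cq; push_cast; norm_num
  rw [e1]
  have e2 : (1 : ℝ) / 10 ^ 5 = 1 / 100000 := by norm_num
  rw [← e2]; exact h1

theorem abs_le_of {x y e : ℝ} (h : |x - y| ≤ e) : |x| ≤ |y| + e := by
  have h1 : x = y + (x - y) := by ring
  calc |x| = |y + (x - y)| := by rw [← h1]
    _ ≤ |y| + |x - y| := abs_add_le _ _
    _ ≤ |y| + e := by linarith

theorem KK_le (h : StTrg) (j : ℤ) :
    |KK (Real.pi / 30) (2 * Real.pi / 15) j| ≤ (kq j : ℝ) := by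
  have h1 := abs_le_of (cos_of h (Real.pi * (1 + j) / 3 + j * (Real.pi / 30)) (44 * j + 40)
    (by push_cast; ring))
  have h2 := abs_le_of (cos_of h (j * (2 * Real.pi / 15) / 2 - Real.pi / 2) (8 * j - 60)
    (by push_cast; ring))
  rw [Real.cos_sub_pi_div_two] at h2
  unfold KK RR kq
  push_cast
  rw [abs_mul, abs_mul, abs_div]
  have e4 : |(4 : ℝ)| = 4 := by norm_num
  rw [e4]
  have h3 : (0 : ℝ) ≤ 4 / |(j : ℝ)| := by positivity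
  have e1 : ((cq (44 * j + 40) : ℚ) : ℝ) = ((cq (44 * j + 40) : ℚ) : ℝ) := rfl
  refine mul_le_mul h1 (mul_le_mul_of_nonneg_left h2 h3) (by positivity) (by positivity)

theorem thq_eq (m : ℤ) : ((thq m : ℚ) : ℝ) = thC m := by
  unfold thq thC
  split_ifs <;> norm_num

theorem thq_pos (m : ℤ) : (0 : ℝ) ≤ ((thq m : ℚ) : ℝ) := by
  unfold thq
  split_ifs <;> norm_num

theorem wtq_eq (n m : ℤ) : ((wtq n m : ℚ) : ℝ) = wt thC n m := by
  unfold wtq wt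
  split_ifs
  · norm_num
  · exact thq_eq m

theorem wt_pos (n m : ℤ) : 0 ≤ wt thC n m := by
  unfold wt
  split_ifs
  · norm_num
  · rw [← thq_eq]; exact thq_pos m

theorem aK_le (h : StTrg) (n m : ℤ) :
    aK (Real.pi / 30) (2 * Real.pi / 15) n m ≤ ((aq n m : ℚ) : ℝ) := by
  have h1 := KK_le h (n + m)
  unfold aK aq
  by_cases c1 : n = 1 ∧ m = -2
  · rw [if_pos c1, if_pos c1]; norm_num
  · rw [if_neg c1, if_neg c1]
    by_cases c2 : (m - n) ^ 2 = 9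
    · rw [if_pos c2, if_pos c2]
      push_cast
      exact mul_le_mul_of_nonneg_left h1 (by norm_num)
    · rw [if_neg c2, if_neg c2]
      push_cast
      exact mul_le_mul_of_nonneg_left h1 (by norm_num)

theorem bC_le (h : StTrg) (n : ℤ) :
    bC thC (Real.pi / 30) (2 * Real.pi / 15) n ≤ ((bq n : ℚ) : ℝ) := by
  unfold bC bq
  push_cast
  rw [wtq_eq, wtq_eq, wtq_eq, wtq_eq]
  have h1 := mul_le_mul_of_nonneg_left (aK_le h n (n - 9)) (wt_pos n (n - 9))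
  have h2 := mul_le_mul_of_nonneg_left (aK_le h n (n - 3)) (wt_pos n (n - 3))
  have h3 := mul_le_mul_of_nonneg_left (aK_le h n (n + 3)) (wt_pos n (n + 3))
  have h4 := mul_le_mul_of_nonneg_left (aK_le h n (n + 9)) (wt_pos n (n + 9))
  linarith

theorem gam_mem (h : StTrg) (n : ℤ) :
    |gam (Real.pi / 30) (2 * Real.pi / 15) n - ((gq n : ℚ) : ℝ)| ≤ 2 / 100000 := by
  have h1 := cos_of h (2 * Real.pi * (n + 1) / 3 + 2 * n * (Real.pi / 30)) (88 * n + 80)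
    (by push_cast; ring)
  have h2 := cos_of h (n * (2 * Real.pi / 15)) (16 * n) (by push_cast; ring)
  unfold gam gq
  push_cast
  obtain ⟨x, hx⟩ : ∃ x, x = Real.cos (2 * Real.pi * (n + 1) / 3 + 2 * n * (Real.pi / 30)) := ⟨_, rfl⟩
  obtain ⟨y, hy⟩ : ∃ y, y = Real.cos (n * (2 * Real.pi / 15)) := ⟨_, rfl⟩
  obtain ⟨a, ha⟩ : ∃ a : ℝ, a = ((cq (88 * n + 80) : ℚ) : ℝ) := ⟨_, rfl⟩
  obtain ⟨b, hb⟩ : ∃ b : ℝ, b = ((cq (16 * n) : ℚ) : ℝ) := ⟨_, rfl⟩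
  rw [← hx, ← ha] at h1
  rw [← hy, ← hb] at h2
  rw [← hx, ← hy, ← ha, ← hb]
  have hy1 : |y| ≤ 1 := by rw [hy]; exact Real.abs_cos_le_one _
  have hx1 : |x| ≤ 1 := by rw [hx]; exact Real.abs_cos_le_one _
  have ha1 : |a| ≤ 2 := by
    have := abs_le_of (x := a) (y := x) (e := 1 / 100000) (by rw [abs_sub_comm]; exact h1)
    linarith
  have e1 : 1 / 2 + 1 / 2 * x * y - (1 / 2 + 1 / 2 * (a * b))
      = 1 / 2 * ((x - a) * y) + 1 / 2 * (a * (y - b)) := by ring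
  rw [e1]
  have h3 : |(x - a) * y| ≤ 1 / 100000 * 1 := by
    rw [abs_mul]; exact mul_le_mul h1 hy1 (abs_nonneg _) (by norm_num)
  have h4 : |a * (y - b)| ≤ 2 * (1 / 100000) := by
    rw [abs_mul]; exact mul_le_mul ha1 h2 (abs_nonneg _) (by norm_num)
  calc |1 / 2 * ((x - a) * y) + 1 / 2 * (a * (y - b))|
      ≤ |1 / 2 * ((x - a) * y)| + |1 / 2 * (a * (y - b))| := abs_add_le _ _
    _ = 1 / 2 * |(x - a) * y| + 1 / 2 * |a * (y - b)| := by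
        rw [abs_mul, abs_mul (1 / 2 : ℝ) (a * (y - b))]; norm_num
    _ ≤ 2 / 100000 := by linarith

theorem gam_01 (n : ℤ) : 0 ≤ gam (Real.pi / 30) (2 * Real.pi / 15) n ∧
    gam (Real.pi / 30) (2 * Real.pi / 15) n ≤ 1 := by
  unfold gam
  obtain ⟨x, hx⟩ : ∃ x, x = Real.cos (2 * Real.pi * (n + 1) / 3 + 2 * n * (Real.pi / 30)) := ⟨_, rfl⟩
  obtain ⟨y, hy⟩ : ∃ y, y = Real.cos (n * (2 * Real.pi / 15)) := ⟨_, rfl⟩
  rw [← hx, ← hy]
  have hy1 : |y| ≤ 1 := by rw [hy]; exact Real.abs_cos_le_one _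
  have hx1 : |x| ≤ 1 := by rw [hx]; exact Real.abs_cos_le_one _
  have h : |x * y| ≤ 1 := by
    rw [abs_mul]; calc |x| * |y| ≤ 1 * 1 := mul_le_mul hx1 hy1 (abs_nonneg _) (by norm_num)
      _ = 1 := by norm_num
  have h2 := abs_le.mp h
  constructor <;> nlinarith [h2.1, h2.2]

/-! ### the quadratic form -/

theorem form_nonneg (a b c : ℝ) (u w : ℂ) (ha : 0 ≤ a) (hb : 0 ≤ b) (h : c ^ 2 ≤ a * b) :
    0 ≤ a * ‖u‖ ^ 2 + b * ‖w‖ ^ 2 + 2 * c * (u * w).re := by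
  have h1 : |(u * w).re| ≤ ‖u‖ * ‖w‖ := by
    rw [← norm_mul]; exact Complex.abs_re_le_norm _
  have h2 : |2 * c * (u * w).re| ≤ a * ‖u‖ ^ 2 + b * ‖w‖ ^ 2 := by
    have h0 : 0 ≤ a * ‖u‖ ^ 2 + b * ‖w‖ ^ 2 := by positivity
    refine abs_le_of_sq_le_sq ?_ h0 |> fun hh => abs_le.mpr ⟨(abs_le.mp hh).1, (abs_le.mp hh).2⟩
    have h3 : (u * w).re ^ 2 ≤ (‖u‖ * ‖w‖) ^ 2 := by
      rw [← sq_abs]; exact pow_le_pow_left₀ (abs_nonneg _) h1 2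
    have h4 : c ^ 2 * (u * w).re ^ 2 ≤ (a * b) * (‖u‖ * ‖w‖) ^ 2 :=
      mul_le_mul h h3 (sq_nonneg _) (mul_nonneg ha hb)
    nlinarith [sq_nonneg (a * ‖u‖ ^ 2 - b * ‖w‖ ^ 2)]
  linarith [(abs_le.mp h2).1]

theorem nsq_sub (p q : ℝ) (u w : ℂ) :
    ‖((p : ℝ) : ℂ) * u - ((q : ℝ) : ℂ) * (starRingEnd ℂ) w‖ ^ 2
      = p ^ 2 * ‖u‖ ^ 2 + q ^ 2 * ‖w‖ ^ 2 - 2 * (p * q) * (u * w).re := by
  rw [Complex.sq_norm, Complex.sq_norm, Complex.sq_norm, Complex.normSq_apply, Complex.normSq_apply,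
    Complex.normSq_apply]
  simp
  ring

theorem nsq_add (p q : ℝ) (u w : ℂ) :
    ‖((p : ℝ) : ℂ) * u + ((q : ℝ) : ℂ) * (starRingEnd ℂ) w‖ ^ 2
      = p ^ 2 * ‖u‖ ^ 2 + q ^ 2 * ‖w‖ ^ 2 + 2 * (p * q) * (u * w).re := by
  rw [Complex.sq_norm, Complex.sq_norm, Complex.sq_norm, Complex.normSq_apply, Complex.normSq_apply,
    Complex.normSq_apply]
  simp
  ring

theorem nsq_one (u w : ℂ) :
    ‖u + (starRingEnd ℂ) w‖ ^ 2 = ‖u‖ ^ 2 + ‖w‖ ^ 2 + 2 * (u * w).re := by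
  have h := nsq_add 1 1 u w
  simpa using h

theorem sqrt3_mem : (173205 / 100000 : ℝ) ≤ Real.sqrt 3 ∧ Real.sqrt 3 ≤ 173206 / 100000 := by
  constructor
  · apply Real.le_sqrt_of_sq_le; norm_num
  · rw [Real.sqrt_le_left (by norm_num)]; norm_num

theorem FS_mem : (17566 / 10000 : ℝ) ≤ FSc (1 / 20) (33 / 200) ∧
    FSc (1 / 20) (33 / 200) ≤ 175664 / 100000 := by
  unfold FSc
  have h := sqrt3_mem
  constructor <;> linarith [h.1, h.2]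

/-- the block inequality for `k ≠ 0` from the conditions on the coefficients -/
theorem blk_of_coef (k : ℕ) (hk : k ≠ 0) (θ : ℤ → ℝ) (d ρ : ℝ) (u w : ℂ) (B1 B2 G1 G2 P Q F : ℝ)
    (hB1 : bC θ d ρ (2 * k + 3) = B1) (hB2 : bC θ d ρ (-(2 * k + 1)) = B2)
    (hG1 : gam d ρ (2 * k + 3) = G1) (hG2 : gam d ρ (-(2 * k + 1)) = G2)
    (hP : gg (1 / 20) k + 33 / 200 * chu k = P) (hQ : gg (1 / 20) k + 33 / 200 * chw k = Q)
    (hF : FSc (1 / 20) (33 / 200) = F)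
    (ha : 0 ≤ 891 / 100 - 17 / 100 - B1 - F / 4 + 1 / (2 * (k : ℝ) + 3)
      + 19 / 20 * (4 * G1 / (2 * (k : ℝ) + 3))
      - 25 / 33 * ((2 * (k : ℝ) + 1) / (2 * (k : ℝ) + 3)) * P ^ 2)
    (hb : 0 ≤ 891 / 100 - 17 / 100 - B2 - F / 4 - 1 / (2 * (k : ℝ) + 1)
      - 19 / 20 * (4 * G2 / (2 * (k : ℝ) + 1))
      - 25 / 33 * ((2 * (k : ℝ) + 3) / (2 * (k : ℝ) + 1)) * Q ^ 2)
    (hc : (-(F / 4) + 25 / 33 * (P * Q)) ^ 2 ≤
      (891 / 100 - 17 / 100 - B1 - F / 4 + 1 / (2 * (k : ℝ) + 3)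
      + 19 / 20 * (4 * G1 / (2 * (k : ℝ) + 3))
      - 25 / 33 * ((2 * (k : ℝ) + 1) / (2 * (k : ℝ) + 3)) * P ^ 2) *
      (891 / 100 - 17 / 100 - B2 - F / 4 - 1 / (2 * (k : ℝ) + 1)
      - 19 / 20 * (4 * G2 / (2 * (k : ℝ) + 1))
      - 25 / 33 * ((2 * (k : ℝ) + 3) / (2 * (k : ℝ) + 1)) * Q ^ 2)) :
    (bC θ d ρ (2 * k + 3) + 17 / 100 + if k = 0 then 3 else 0) * ‖u‖ ^ 2
    + (bC θ d ρ (-(2 * k + 1)) + 17 / 100 + if k = 0 then 3 else 0) * ‖w‖ ^ 2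
  ≤ QB (1 / 20) (33 / 200) d ρ k u w + 891 / 100 * (‖u‖ ^ 2 + ‖w‖ ^ 2)
    - FSc (1 / 20) (33 / 200) / 4 * ‖u + (starRingEnd ℂ) w‖ ^ 2 := by
  have key := form_nonneg _ _ _ u w ha hb hc
  unfold QB
  rw [if_neg hk, if_neg hk, hB1, hB2, hG1, hG2, hP, hQ, hF, nsq_sub, nsq_one]
  have h1 : (2 * (k : ℝ) + 1) ≠ 0 := by positivity
  have h3 : (2 * (k : ℝ) + 3) ≠ 0 := by positivity
  have e1 : ((2 * (k : ℝ) + 2) ^ 2 - 1) / (8 * (33 / 200)) * (P / (2 * (k : ℝ) + 3)) ^ 2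
      = 25 / 33 * ((2 * (k : ℝ) + 1) / (2 * (k : ℝ) + 3)) * P ^ 2 := by
    field_simp; ring
  have e2 : ((2 * (k : ℝ) + 2) ^ 2 - 1) / (8 * (33 / 200)) * (Q / (2 * (k : ℝ) + 1)) ^ 2
      = 25 / 33 * ((2 * (k : ℝ) + 3) / (2 * (k : ℝ) + 1)) * Q ^ 2 := by
    field_simp; ring
  have e3 : ((2 * (k : ℝ) + 2) ^ 2 - 1) / (8 * (33 / 200)) * (P / (2 * (k : ℝ) + 3)
      * (Q / (2 * (k : ℝ) + 1))) = 25 / 33 * (P * Q) := by
    field_simp; ring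
  have e4 : ((2 * (k : ℝ) + 2) ^ 2 - 1) / (8 * (33 / 200)) *
      ((P / (2 * (k : ℝ) + 3)) ^ 2 * ‖u‖ ^ 2 + (Q / (2 * (k : ℝ) + 1)) ^ 2 * ‖w‖ ^ 2
        - 2 * (P / (2 * (k : ℝ) + 3) * (Q / (2 * (k : ℝ) + 1))) * (u * w).re)
      = 25 / 33 * ((2 * (k : ℝ) + 1) / (2 * (k : ℝ) + 3)) * P ^ 2 * ‖u‖ ^ 2
        + 25 / 33 * ((2 * (k : ℝ) + 3) / (2 * (k : ℝ) + 1)) * Q ^ 2 * ‖w‖ ^ 2
        - 2 * (25 / 33 * (P * Q)) * (u * w).re := by
    rw [← e1, ← e2, ← e3]; ring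
  rw [neg_mul, e4]
  linarith [key]

theorem gg_bd (k : ℕ) : |gg (1 / 20) k - (2 + 173205 / 2000000 * (-1) ^ k)| ≤ 5 / 10000000 := by
  unfold gg
  have h := sqrt3_mem
  have e : 2 - 1 / 20 * Real.sqrt 3 * (-1) ^ (k + 1) - (2 + 173205 / 2000000 * (-1) ^ k)
      = 1 / 20 * (Real.sqrt 3 - 173205 / 100000) * (-1) ^ k := by ring
  rw [e, abs_mul, abs_pow, abs_neg, abs_one, one_pow, mul_one, abs_of_nonneg (by linarith [h.1])]
  linarith [h.2]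

theorem P_mem (k : ℕ) : |gg (1 / 20) k + 33 / 200 * chu k - ((pq k : ℚ) : ℝ)| ≤ 5 / 10000000 := by
  have h := gg_bd k
  have e : gg (1 / 20) k + 33 / 200 * chu k - ((pq k : ℚ) : ℝ)
      = gg (1 / 20) k - (2 + 173205 / 2000000 * (-1) ^ k) := by
    unfold pq chu
    split_ifs <;> (push_cast; ring)
  rw [e]; exact h

theorem Q_mem (k : ℕ) : |gg (1 / 20) k + 33 / 200 * chw k - ((qq k : ℚ) : ℝ)| ≤ 5 / 10000000 := by
  have h := gg_bd k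
  have e : gg (1 / 20) k + 33 / 200 * chw k - ((qq k : ℚ) : ℝ)
      = gg (1 / 20) k - (2 + 173205 / 2000000 * (-1) ^ k) := by
    unfold qq chw
    split_ifs <;> (push_cast; ring)
  rw [e]; exact h

theorem pq_01 (k : ℕ) : (3 / 2 : ℝ) ≤ ((pq k : ℚ) : ℝ) ∧ ((pq k : ℚ) : ℝ) ≤ 5 / 2 := by
  unfold pq
  rcases neg_one_pow_eq_or ℚ k with h | h <;> rw [h] <;> split_ifs <;> (push_cast; norm_num)

theorem qq_01 (k : ℕ) : (3 / 2 : ℝ) ≤ ((qq k : ℚ) : ℝ) ∧ ((qq k : ℚ) : ℝ) ≤ 5 / 2 := by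
  unfold qq
  rcases neg_one_pow_eq_or ℚ k with h | h <;> rw [h] <;> split_ifs <;> (push_cast; norm_num)

theorem prod_bd {P Q p q F : ℝ} (hP : |P - p| ≤ 5 / 10000000) (hQ : |Q - q| ≤ 5 / 10000000)
    (hp : 3 / 2 ≤ p) (hp2 : p ≤ 5 / 2) (hq : 3 / 2 ≤ q) (hq2 : q ≤ 5 / 2)
    (hF : (17566 / 10000 : ℝ) ≤ F) (hF2 : F ≤ 175664 / 100000) :
    |-(F / 4) + 25 / 33 * (P * Q)| ≤ |-(43915 / 100000) + 25 / 33 * (p * q)| + 2 / 100000 := by
  apply abs_le_of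
  have h1 := abs_le.mp hP
  have h2 := abs_le.mp hQ
  have e : -(F / 4) + 25 / 33 * (P * Q) - (-(43915 / 100000) + 25 / 33 * (p * q))
      = (43915 / 100000 - F / 4) + 25 / 33 * ((P - p) * Q + p * (Q - q)) := by ring
  rw [e]
  have h3 : |(P - p) * Q| ≤ 5 / 10000000 * 3 := by
    rw [abs_mul]
    exact mul_le_mul hP (abs_le.mpr ⟨by linarith [h2.1], by linarith [h2.2]⟩) (abs_nonneg _) (by norm_num)
  have h4 : |p * (Q - q)| ≤ 3 * (5 / 10000000) := by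
    rw [abs_mul]
    exact mul_le_mul (abs_le.mpr ⟨by linarith, by linarith⟩) hQ (abs_nonneg _) (by norm_num)
  have h5 := abs_le.mp h3
  have h6 := abs_le.mp h4
  exact abs_le.mpr ⟨by linarith [h5.1, h6.1], by linarith [h5.2, h6.2]⟩

/-- `1 ≤ k ≤ 8` -/
theorem blk_small (h : StTrg) (k : ℕ) (hk : k ≠ 0) (hk9 : k < 9) (u w : ℂ) :
    (bC thC (Real.pi / 30) (2 * Real.pi / 15) (2 * k + 3) + 17 / 100 + if k = 0 then 3 else 0) * ‖u‖ ^ 2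
    + (bC thC (Real.pi / 30) (2 * Real.pi / 15) (-(2 * k + 1)) + 17 / 100 + if k = 0 then 3 else 0)
      * ‖w‖ ^ 2
  ≤ QB (1 / 20) (33 / 200) (Real.pi / 30) (2 * Real.pi / 15) k u w + 891 / 100 * (‖u‖ ^ 2 + ‖w‖ ^ 2)
    - FSc (1 / 20) (33 / 200) / 4 * ‖u + (starRingEnd ℂ) w‖ ^ 2 := by
  obtain ⟨s1, s2, s3⟩ := small k hk9 hk
  have t1 : (0 : ℝ) ≤ ((aL k : ℚ) : ℝ) := by exact_mod_cast s1
  have t2 : (0 : ℝ) ≤ ((bL k : ℚ) : ℝ) := by exact_mod_cast s2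
  have t3 : ((cU k : ℚ) : ℝ) ^ 2 ≤ ((aL k : ℚ) : ℝ) * ((bL k : ℚ) : ℝ) := by exact_mod_cast s3
  have hB1 := bC_le h (2 * k + 3)
  have hB2 := bC_le h (-(2 * k + 1))
  have hG1 := abs_le.mp (gam_mem h (2 * k + 3))
  have hG2 := abs_le.mp (gam_mem h (-(2 * k + 1)))
  have hP := P_mem k
  have hQ := Q_mem k
  have hp := pq_01 k
  have hq := qq_01 k
  have hF := FS_mem
  have hPp := abs_le.mp hP
  have hQq := abs_le.mp hQ
  have k3 : (0 : ℝ) < 2 * (k : ℝ) + 3 := by positivity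
  have k1 : (0 : ℝ) < 2 * (k : ℝ) + 1 := by positivity
  have hP2 : (gg (1 / 20) k + 33 / 200 * chu k) ^ 2 ≤ (((pq k : ℚ) : ℝ) + 1 / 1000000) ^ 2 := by
    apply pow_le_pow_left₀ <;> linarith [hPp.1, hPp.2, hp.1]
  have hQ2 : (gg (1 / 20) k + 33 / 200 * chw k) ^ 2 ≤ (((qq k : ℚ) : ℝ) + 1 / 1000000) ^ 2 := by
    apply pow_le_pow_left₀ <;> linarith [hQq.1, hQq.2, hq.1]
  have r1 : (0 : ℝ) ≤ 25 / 33 * ((2 * (k : ℝ) + 1) / (2 * (k : ℝ) + 3)) := by positivity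
  have r2 : (0 : ℝ) ≤ 25 / 33 * ((2 * (k : ℝ) + 3) / (2 * (k : ℝ) + 1)) := by positivity
  have m1 := mul_le_mul_of_nonneg_left hP2 r1
  have m2 := mul_le_mul_of_nonneg_left hQ2 r2
  have g1 : 4 * (((gq (2 * k + 3) : ℚ) : ℝ) - 2 / 100000) / (2 * (k : ℝ) + 3)
      ≤ 4 * gam (Real.pi / 30) (2 * Real.pi / 15) (2 * k + 3) / (2 * (k : ℝ) + 3) :=
    div_le_div_of_nonneg_right (by linarith [hG1.1]) k3.le
  have g2 : 4 * gam (Real.pi / 30) (2 * Real.pi / 15) (-(2 * k + 1)) / (2 * (k : ℝ) + 1)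
      ≤ 4 * (((gq (-(2 * k + 1)) : ℚ) : ℝ) + 2 / 100000) / (2 * (k : ℝ) + 1) :=
    div_le_div_of_nonneg_right (by linarith [hG2.2]) k1.le
  have hA : ((aL k : ℚ) : ℝ) ≤ 891 / 100 - 17 / 100
      - bC thC (Real.pi / 30) (2 * Real.pi / 15) (2 * k + 3)
      - FSc (1 / 20) (33 / 200) / 4 + 1 / (2 * (k : ℝ) + 3)
      + 19 / 20 * (4 * gam (Real.pi / 30) (2 * Real.pi / 15) (2 * k + 3) / (2 * (k : ℝ) + 3))
      - 25 / 33 * ((2 * (k : ℝ) + 1) / (2 * (k : ℝ) + 3)) * (gg (1 / 20) k + 33 / 200 * chu k) ^ 2 := by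
    unfold aL
    push_cast
    linarith [m1, g1, hB1, hF.2]
  have hB : ((bL k : ℚ) : ℝ) ≤ 891 / 100 - 17 / 100
      - bC thC (Real.pi / 30) (2 * Real.pi / 15) (-(2 * k + 1))
      - FSc (1 / 20) (33 / 200) / 4 - 1 / (2 * (k : ℝ) + 1)
      - 19 / 20 * (4 * gam (Real.pi / 30) (2 * Real.pi / 15) (-(2 * k + 1)) / (2 * (k : ℝ) + 1))
      - 25 / 33 * ((2 * (k : ℝ) + 3) / (2 * (k : ℝ) + 1)) * (gg (1 / 20) k + 33 / 200 * chw k) ^ 2 := by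
    unfold bL
    push_cast
    linarith [m2, g2, hB2, hF.2]
  have hC := prod_bd hP hQ hp.1 hp.2 hq.1 hq.2 hF.1 hF.2
  have hC2 : (-(FSc (1 / 20) (33 / 200) / 4) + 25 / 33 * ((gg (1 / 20) k + 33 / 200 * chu k)
      * (gg (1 / 20) k + 33 / 200 * chw k))) ^ 2 ≤ ((cU k : ℚ) : ℝ) ^ 2 := by
    rw [← sq_abs]
    apply pow_le_pow_left₀ (abs_nonneg _)
    unfold cU
    push_cast
    exact hC
  refine blk_of_coef k hk _ _ _ u w _ _ _ _ _ _ _ rfl rfl rfl rfl rfl rfl rfl (t1.trans hA)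
    (t2.trans hB) ?_
  exact hC2.trans (t3.trans (mul_le_mul hA hB t2 (t1.trans hA)))

/-- `k = 0` -/
theorem blk_zero (h : StTrg) (u w : ℂ) :
    (bC thC (Real.pi / 30) (2 * Real.pi / 15) (2 * ((0 : ℕ) : ℤ) + 3) + 17 / 100
      + if (0 : ℕ) = 0 then 3 else 0) * ‖u‖ ^ 2
    + (bC thC (Real.pi / 30) (2 * Real.pi / 15) (-(2 * ((0 : ℕ) : ℤ) + 1)) + 17 / 100
      + if (0 : ℕ) = 0 then 3 else 0) * ‖w‖ ^ 2
  ≤ QB (1 / 20) (33 / 200) (Real.pi / 30) (2 * Real.pi / 15) 0 u w + 891 / 100 * (‖u‖ ^ 2 + ‖w‖ ^ 2)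
    - FSc (1 / 20) (33 / 200) / 4 * ‖u + (starRingEnd ℂ) w‖ ^ 2 := by
  have z1 : (2 * ((0 : ℕ) : ℤ) + 3) = 3 := by norm_num
  have z2 : (-(2 * ((0 : ℕ) : ℤ) + 1)) = -1 := by norm_num
  unfold QB
  rw [if_pos rfl, if_pos rfl, z1, z2]
  obtain ⟨q1, q2, q3⟩ := zero1
  have hB1 := bC_le h 3
  have hB2 := bC_le h (-1)
  have hG1 := (gam_01 3).1
  have hG2 := (abs_le.mp (gam_mem h (-1))).2
  have t1 : ((bq 3 : ℚ) : ℝ) ≤ 52 / 100 := by
    have : ((bq 3 : ℚ) : ℝ) ≤ ((52 / 100 : ℚ) : ℝ) := by exact_mod_cast q1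
    push_cast at this; linarith
  have t2 : ((bq (-1) : ℚ) : ℝ) ≤ 43 / 100 := by
    have : ((bq (-1) : ℚ) : ℝ) ≤ ((43 / 100 : ℚ) : ℝ) := by exact_mod_cast q2
    push_cast at this; linarith
  have t3 : ((gq (-1) : ℚ) : ℝ) ≤ 95 / 100 := by
    have : ((gq (-1) : ℚ) : ℝ) ≤ ((95 / 100 : ℚ) : ℝ) := by exact_mod_cast q3
    push_cast at this; linarith
  have hF := FS_mem
  have hs := sqrt3_mem
  have hg1 : gg (1 / 20) 0 = 2 + Real.sqrt 3 / 20 := by unfold gg; ring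
  have c0 : ((((0 : ℕ) : ℝ))) = 0 := by norm_num
  obtain ⟨B1, eB1⟩ : ∃ x, x = bC thC (Real.pi / 30) (2 * Real.pi / 15) 3 := ⟨_, rfl⟩
  obtain ⟨B2, eB2⟩ : ∃ x, x = bC thC (Real.pi / 30) (2 * Real.pi / 15) (-1) := ⟨_, rfl⟩
  obtain ⟨G1, eG1⟩ : ∃ x, x = gam (Real.pi / 30) (2 * Real.pi / 15) 3 := ⟨_, rfl⟩
  obtain ⟨G2, eG2⟩ : ∃ x, x = gam (Real.pi / 30) (2 * Real.pi / 15) (-1) := ⟨_, rfl⟩
  obtain ⟨F, eF⟩ : ∃ x, x = FSc (1 / 20) (33 / 200) := ⟨_, rfl⟩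
  obtain ⟨s, es⟩ : ∃ x, x = Real.sqrt 3 := ⟨_, rfl⟩
  have hn1 : ‖(3 / 2 : ℂ) * (starRingEnd ℂ) w - (1 / 2 : ℂ) * u‖ ^ 2
      = 1 / 4 * ‖u‖ ^ 2 + 9 / 4 * ‖w‖ ^ 2 - 2 * (3 / 4) * (u * w).re := by
    have hh := nsq_sub (1 / 2) (3 / 2) u w
    rw [norm_sub_rev] at hh
    push_cast at hh
    rw [hh]; ring
  rw [hn1, nsq_add, nsq_one, hg1, c0, ← eB1, ← eB2, ← eG1, ← eG2, ← eF, ← es]
  rw [← eB1] at hB1
  rw [← eB2] at hB2
  rw [← eG1] at hG1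
  rw [← eG2] at hG2
  rw [← eF] at hF
  rw [← es] at hs
  obtain ⟨p, ep⟩ : ∃ p : ℝ, p = (2 + s / 20 - 33 / 200 - 2) / 3 := ⟨_, rfl⟩
  obtain ⟨q, eq⟩ : ∃ q : ℝ, q = 2 - (2 + s / 20) - 2 * (33 / 200) := ⟨_, rfl⟩
  rw [← ep, ← eq]
  have p1 : -(27 / 1000) ≤ p := by rw [ep]; linarith [hs.1]
  have p2 : p ≤ -(26 / 1000) := by rw [ep]; linarith [hs.2]
  have q1' : -(42 / 100) ≤ q := by rw [eq]; linarith [hs.2]
  have q2' : q ≤ -(41 / 100) := by rw [eq]; linarith [hs.1]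
  have pp : p ^ 2 ≤ 1 / 1000 := by nlinarith
  have qq2 : q ^ 2 ≤ 18 / 100 := by nlinarith
  have pq1 : 0 ≤ p * q := mul_nonneg_of_nonpos_of_nonpos (by linarith) (by linarith)
  have pq2 : p * q ≤ 12 / 1000 := by nlinarith
  have ha : (5 : ℝ) ≤ 891 / 100 - B1 - 17 / 100 - 3 - F / 4 + (1 / (2 * 0 + 3)
      + (1 - 1 / 20) * (4 * G1 / (2 * 0 + 3))) + 2 / 3 * (1 / 4)
      - 3 / (8 * (1 + 33 / 200)) * p ^ 2 := by
    have e1 : (3 / (8 * (1 + 33 / 200)) : ℝ) = 75 / 233 := by norm_num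
    rw [e1]
    have e2 : 4 * G1 / (2 * 0 + 3) = 4 / 3 * G1 := by ring
    rw [e2]
    linarith [hF.2]
  have hb : (16 / 10 : ℝ) ≤ 891 / 100 - B2 - 17 / 100 - 3 - F / 4 - (1 / (2 * 0 + 1)
      + (1 - 1 / 20) * (4 * G2 / (2 * 0 + 1))) + 2 / 3 * (9 / 4)
      - 3 / (8 * (1 + 33 / 200)) * q ^ 2 := by
    have e1 : (3 / (8 * (1 + 33 / 200)) : ℝ) = 75 / 233 := by norm_num
    rw [e1]
    have e2 : 4 * G2 / (2 * 0 + 1) = 4 * G2 := by ring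
    rw [e2]
    linarith [hF.2]
  have hc : (-(F / 4) - 2 / 3 * (3 / 4) - 3 / (8 * (1 + 33 / 200)) * (p * q)) ^ 2 ≤ 1 := by
    have e1 : (3 / (8 * (1 + 33 / 200)) : ℝ) = 75 / 233 := by norm_num
    rw [e1]
    have hh : (-(F / 4) - 2 / 3 * (3 / 4) - 75 / 233 * (p * q)) ^ 2 ≤ (1 : ℝ) ^ 2 :=
      sq_le_sq' (by linarith [hF.2]) (by linarith [hF.1])
    linarith
  have key := form_nonneg _ _ (-(F / 4) - 2 / 3 * (3 / 4) - 3 / (8 * (1 + 33 / 200)) * (p * q)) u w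
    (le_trans (by norm_num) ha) (le_trans (by norm_num) hb) (by
      refine hc.trans (le_trans (by norm_num : (1 : ℝ) ≤ 5 * (16 / 10)) ?_)
      exact mul_le_mul ha hb (by norm_num) (le_trans (by norm_num) ha))
  linarith [key]

/-! ### the tail `k ≥ 9` -/

theorem KK_tail (j : ℤ) (m : ℕ) (hm : 0 < m) (hj : (m : ℤ) ≤ |j|) :
    |KK (Real.pi / 30) (2 * Real.pi / 15) j| ≤ 4 / (m : ℝ) := by
  have hm' : (0 : ℝ) < m := by exact_mod_cast hm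
  have hj' : (m : ℝ) ≤ |(j : ℝ)| := by
    have : (m : ℝ) = ((m : ℤ) : ℝ) := by push_cast; rfl
    rw [this, ← Int.cast_abs]; exact_mod_cast hj
  unfold KK RR
  rw [abs_mul, abs_mul, abs_div]
  have e4 : |(4 : ℝ)| = 4 := by norm_num
  rw [e4]
  have h1 := Real.abs_cos_le_one (Real.pi * (1 + j) / 3 + j * (Real.pi / 30))
  have h2 := Real.abs_sin_le_one (j * (2 * Real.pi / 15) / 2)
  have h3 : 4 / |(j : ℝ)| ≤ 4 / (m : ℝ) := div_le_div_of_nonneg_left (by norm_num) hm' hj'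
  have h4 : 0 ≤ 4 / |(j : ℝ)| := by positivity
  calc |Real.cos (Real.pi * (1 + j) / 3 + j * (Real.pi / 30))| * (4 / |(j : ℝ)|
      * |Real.sin (j * (2 * Real.pi / 15) / 2)|) ≤ 1 * (4 / (m : ℝ) * 1) := by
        refine mul_le_mul h1 (mul_le_mul h3 h2 (abs_nonneg _) (h4.trans h3)) (by positivity)
          (by norm_num)
    _ = 4 / (m : ℝ) := by ring

theorem thC_tail (m : ℤ) (hm : 12 ≤ m ∨ m ≤ -10) : thC m = 1 := by
  unfold thC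
  rw [if_neg (by omega), if_neg (by omega), if_neg (by omega), if_neg (by omega), if_neg (by omega),
    if_neg (by omega), if_neg (by omega), if_neg (by omega), if_neg (by omega), if_neg (by omega)]

theorem bC_tail (n : ℤ) (hn : 21 ≤ n ∨ n ≤ -19) :
    bC thC (Real.pi / 30) (2 * Real.pi / 15) n ≤ 27 / 100 := by
  have w1 : wt thC n (n - 9) = 1 := by
    unfold wt; rw [if_neg (by omega)]; exact thC_tail _ (by omega)
  have w2 : wt thC n (n - 3) = 1 := by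
    unfold wt; rw [if_neg (by omega)]; exact thC_tail _ (by omega)
  have w3 : wt thC n (n + 3) = 1 := by
    unfold wt; rw [if_neg (by omega)]; exact thC_tail _ (by omega)
  have w4 : wt thC n (n + 9) = 1 := by
    unfold wt; rw [if_neg (by omega)]; exact thC_tail _ (by omega)
  have k1 := KK_tail (n + (n - 9)) 29 (by norm_num) (by
    rcases hn with h | h
    · rw [abs_of_nonneg (by omega)]; push_cast; omega
    · rw [abs_of_nonpos (by omega)]; push_cast; omega)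
  have k2 := KK_tail (n + (n - 3)) 35 (by norm_num) (by
    rcases hn with h | h
    · rw [abs_of_nonneg (by omega)]; push_cast; omega
    · rw [abs_of_nonpos (by omega)]; push_cast; omega)
  have k3 := KK_tail (n + (n + 3)) 35 (by norm_num) (by
    rcases hn with h | h
    · rw [abs_of_nonneg (by omega)]; push_cast; omega
    · rw [abs_of_nonpos (by omega)]; push_cast; omega)
  have k4 := KK_tail (n + (n + 9)) 29 (by norm_num) (by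
    rcases hn with h | h
    · rw [abs_of_nonneg (by omega)]; push_cast; omega
    · rw [abs_of_nonpos (by omega)]; push_cast; omega)
  have a1 : aK (Real.pi / 30) (2 * Real.pi / 15) n (n - 9)
      = 19 / 20 * (1 / 10) * |KK (Real.pi / 30) (2 * Real.pi / 15) (n + (n - 9))| := by
    unfold aK
    rw [if_neg (by omega), if_neg (by
      have : n - 9 - n = -9 := by ring
      rw [this]; norm_num)]
  have a2 : aK (Real.pi / 30) (2 * Real.pi / 15) n (n - 3)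
      = 19 / 20 * (11 / 10) * |KK (Real.pi / 30) (2 * Real.pi / 15) (n + (n - 3))| := by
    unfold aK
    rw [if_neg (by omega), if_pos (by
      have : n - 3 - n = -3 := by ring
      rw [this]; norm_num)]
  have a3 : aK (Real.pi / 30) (2 * Real.pi / 15) n (n + 3)
      = 19 / 20 * (11 / 10) * |KK (Real.pi / 30) (2 * Real.pi / 15) (n + (n + 3))| := by
    unfold aK
    rw [if_neg (by omega), if_pos (by
      have : n + 3 - n = 3 := by ring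
      rw [this]; norm_num)]
  have a4 : aK (Real.pi / 30) (2 * Real.pi / 15) n (n + 9)
      = 19 / 20 * (1 / 10) * |KK (Real.pi / 30) (2 * Real.pi / 15) (n + (n + 9))| := by
    unfold aK
    rw [if_neg (by omega), if_neg (by
      have : n + 9 - n = 9 := by ring
      rw [this]; norm_num)]
  unfold bC
  rw [w1, w2, w3, w4, a1, a2, a3, a4]
  push_cast at k1 k2 k3 k4
  linarith

theorem P_le (k : ℕ) (h : k % 3 ≠ 1) : gg (1 / 20) k + 33 / 200 * chu k ≤ 1922 / 1000 := by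
  have h1 := (abs_le.mp (gg_bd k)).2
  unfold chu
  rw [if_neg h]
  rcases neg_one_pow_eq_or ℝ k with e | e <;> rw [e] at h1 <;> linarith

theorem Q_le (k : ℕ) (h : k % 3 ≠ 0) : gg (1 / 20) k + 33 / 200 * chw k ≤ 1922 / 1000 := by
  have h1 := (abs_le.mp (gg_bd k)).2
  unfold chw
  rw [if_neg h]
  rcases neg_one_pow_eq_or ℝ k with e | e <;> rw [e] at h1 <;> linarith

theorem P_le' (k : ℕ) : gg (1 / 20) k + 33 / 200 * chu k ≤ 2417 / 1000 := by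
  have h1 := (abs_le.mp (gg_bd k)).2
  unfold chu
  split_ifs <;> rcases neg_one_pow_eq_or ℝ k with e | e <;> rw [e] at h1 <;> linarith

theorem Q_le' (k : ℕ) : gg (1 / 20) k + 33 / 200 * chw k ≤ 2417 / 1000 := by
  have h1 := (abs_le.mp (gg_bd k)).2
  unfold chw
  split_ifs <;> rcases neg_one_pow_eq_or ℝ k with e | e <;> rw [e] at h1 <;> linarith

theorem P_pos (k : ℕ) : 0 ≤ gg (1 / 20) k + 33 / 200 * chu k := by
  have h1 := (abs_le.mp (P_mem k)).1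
  linarith [(pq_01 k).1]

theorem Q_pos (k : ℕ) : 0 ≤ gg (1 / 20) k + 33 / 200 * chw k := by
  have h1 := (abs_le.mp (Q_mem k)).1
  linarith [(qq_01 k).1]

/-- scalar core of the tail -/
theorem tail_scalar (P Q F B1 B2 G1 G2 x : ℝ) (hx : 9 ≤ x) (hP0 : 0 ≤ P) (hQ0 : 0 ≤ Q)
    (hP : P ≤ 2417 / 1000) (hQ : Q ≤ 2417 / 1000) (hPQ : P ≤ 1922 / 1000 ∨ Q ≤ 1922 / 1000)
    (hF1 : (17566 / 10000 : ℝ) ≤ F) (hF2 : F ≤ 175664 / 100000)
    (hB1 : B1 ≤ 27 / 100) (hB2 : B2 ≤ 27 / 100) (hG1 : 0 ≤ G1) (hG2 : G2 ≤ 1) :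
    0 ≤ 891 / 100 - 17 / 100 - B1 - F / 4 + 1 / (2 * x + 3) + 19 / 20 * (4 * G1 / (2 * x + 3))
      - 25 / 33 * ((2 * x + 1) / (2 * x + 3)) * P ^ 2 ∧
    0 ≤ 891 / 100 - 17 / 100 - B2 - F / 4 - 1 / (2 * x + 1) - 19 / 20 * (4 * G2 / (2 * x + 1))
      - 25 / 33 * ((2 * x + 3) / (2 * x + 1)) * Q ^ 2 ∧
    (-(F / 4) + 25 / 33 * (P * Q)) ^ 2 ≤
      (891 / 100 - 17 / 100 - B1 - F / 4 + 1 / (2 * x + 3) + 19 / 20 * (4 * G1 / (2 * x + 3))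
      - 25 / 33 * ((2 * x + 1) / (2 * x + 3)) * P ^ 2) *
      (891 / 100 - 17 / 100 - B2 - F / 4 - 1 / (2 * x + 1) - 19 / 20 * (4 * G2 / (2 * x + 1))
      - 25 / 33 * ((2 * x + 3) / (2 * x + 1)) * Q ^ 2) := by
  have x3 : 0 < 2 * x + 3 := by linarith
  have x1 : 0 < 2 * x + 1 := by linarith
  have u1 : 0 ≤ 1 / (2 * x + 3) := by positivity
  have u2 : 0 ≤ 4 * G1 / (2 * x + 3) := by positivity
  have u3 : 1 / (2 * x + 1) ≤ 1 / 19 := by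
    apply div_le_div_of_nonneg_left (by norm_num) (by norm_num); linarith
  have u4 : 4 * G2 / (2 * x + 1) ≤ 4 / 19 := by
    rw [div_le_div_iff₀ x1 (by norm_num)]; nlinarith
  have u5 : (2 * x + 1) / (2 * x + 3) ≤ 1 := by rw [div_le_one x3]; linarith
  have u6 : (2 * x + 3) / (2 * x + 1) ≤ 21 / 19 := by
    rw [div_le_div_iff₀ x1 (by norm_num)]; linarith
  have v1 : 25 / 33 * ((2 * x + 1) / (2 * x + 3)) * P ^ 2 ≤ 25 / 33 * P ^ 2 := by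
    have := mul_le_mul_of_nonneg_right u5 (sq_nonneg P)
    linarith
  have v2 : 25 / 33 * ((2 * x + 3) / (2 * x + 1)) * Q ^ 2 ≤ 25 / 33 * (21 / 19) * Q ^ 2 := by
    have := mul_le_mul_of_nonneg_right u6 (sq_nonneg Q)
    linarith
  have c1 : -(F / 4) + 25 / 33 * (P * Q) ≤ 309 / 100 := by
    have : P * Q ≤ 2417 / 1000 * (1922 / 1000) := by
      rcases hPQ with h | h
      · calc P * Q ≤ 1922 / 1000 * (2417 / 1000) := mul_le_mul h hQ hQ0 (by norm_num)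
          _ = 2417 / 1000 * (1922 / 1000) := by ring
      · exact mul_le_mul hP h hQ0 (by norm_num)
    linarith
  have c2 : -(309 / 100) ≤ -(F / 4) + 25 / 33 * (P * Q) := by
    have := mul_nonneg hP0 hQ0
    linarith
  have c3 : (-(F / 4) + 25 / 33 * (P * Q)) ^ 2 ≤ 96 / 10 := by
    have := sq_le_sq' c2 c1
    linarith
  rcases hPQ with h | h
  · have p2 : P ^ 2 ≤ (1922 / 1000) ^ 2 := pow_le_pow_left₀ hP0 h 2
    have q2 : Q ^ 2 ≤ (2417 / 1000) ^ 2 := pow_le_pow_left₀ hQ0 hQ 2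
    have a1 : 52 / 10 ≤ 891 / 100 - 17 / 100 - B1 - F / 4 + 1 / (2 * x + 3)
        + 19 / 20 * (4 * G1 / (2 * x + 3)) - 25 / 33 * ((2 * x + 1) / (2 * x + 3)) * P ^ 2 := by
      linarith
    have b1 : 28 / 10 ≤ 891 / 100 - 17 / 100 - B2 - F / 4 - 1 / (2 * x + 1)
        - 19 / 20 * (4 * G2 / (2 * x + 1)) - 25 / 33 * ((2 * x + 3) / (2 * x + 1)) * Q ^ 2 := by
      linarith
    refine ⟨by linarith, by linarith, c3.trans ?_⟩
    calc (96 / 10 : ℝ) ≤ 52 / 10 * (28 / 10) := by norm_num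
      _ ≤ _ := mul_le_mul a1 b1 (by norm_num) (by linarith)
  · have p2 : P ^ 2 ≤ (2417 / 1000) ^ 2 := pow_le_pow_left₀ hP0 hP 2
    have q2 : Q ^ 2 ≤ (1922 / 1000) ^ 2 := pow_le_pow_left₀ hQ0 h 2
    have a1 : 36 / 10 ≤ 891 / 100 - 17 / 100 - B1 - F / 4 + 1 / (2 * x + 3)
        + 19 / 20 * (4 * G1 / (2 * x + 3)) - 25 / 33 * ((2 * x + 1) / (2 * x + 3)) * P ^ 2 := by
      linarith
    have b1 : 46 / 10 ≤ 891 / 100 - 17 / 100 - B2 - F / 4 - 1 / (2 * x + 1)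
        - 19 / 20 * (4 * G2 / (2 * x + 1)) - 25 / 33 * ((2 * x + 3) / (2 * x + 1)) * Q ^ 2 := by
      linarith
    refine ⟨by linarith, by linarith, c3.trans ?_⟩
    calc (96 / 10 : ℝ) ≤ 36 / 10 * (46 / 10) := by norm_num
      _ ≤ _ := mul_le_mul a1 b1 (by norm_num) (by linarith)

/-- MODULE BLKC -/
theorem hBLKC (h : StTrg) : StBlkC := by
  intro k u w
  by_cases k0 : k = 0
  · subst k0
    exact blk_zero h u w
  · by_cases k9 : k < 9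
    · exact blk_small h k k0 k9 u w
    · have hk : 9 ≤ k := by omega
      have hx : (9 : ℝ) ≤ (k : ℝ) := by exact_mod_cast hk
      have hPQ : gg (1 / 20) k + 33 / 200 * chu k ≤ 1922 / 1000
          ∨ gg (1 / 20) k + 33 / 200 * chw k ≤ 1922 / 1000 := by
        by_cases h3 : k % 3 = 1
        · right; exact Q_le k (by omega)
        · left; exact P_le k h3
      have hs := tail_scalar (gg (1 / 20) k + 33 / 200 * chu k) (gg (1 / 20) k + 33 / 200 * chw k)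
        (FSc (1 / 20) (33 / 200))
        (bC thC (Real.pi / 30) (2 * Real.pi / 15) (2 * k + 3))
        (bC thC (Real.pi / 30) (2 * Real.pi / 15) (-(2 * k + 1)))
        (gam (Real.pi / 30) (2 * Real.pi / 15) (2 * k + 3))
        (gam (Real.pi / 30) (2 * Real.pi / 15) (-(2 * k + 1))) k hx (P_pos k) (Q_pos k)
        (P_le' k) (Q_le' k) hPQ FS_mem.1 FS_mem.2 (bC_tail _ (by omega)) (bC_tail _ (by omega))
        (gam_01 _).1 (gam_01 _).2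
      exact blk_of_coef k k0 _ _ _ u w _ _ _ _ _ _ _ rfl rfl rfl rfl rfl rfl rfl hs.1 hs.2.1 hs.2.2

end Pool.Agent.Helper62.RC
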